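import Pool.Agent.Work.MP_72ad00_an.H.Hd

/-!
A set containing a translate of every two-dimensional plane in dimension `n` has Hausdorff
dimension at least `n - 0.1518 (n - 2)`.
-/

set_option autoImplicit false

namespace Pool.Agent.Results.MP_72ad00_an.HausDim

open Pool.Agent.Work.MP_72ad00_an

theorem result (n : ℕ) (hn : 2 ≤ n) (E : Set (EuclideanSpace ℝ (Fin n)))
    (hE : ∀ V : Submodule ℝ (EuclideanSpace ℝ (Fin n)), Module.finrank ℝ V = 2 →
      ∃ x : EuclideanSpace ℝ (Fin n), ∀ v ∈ V, x + v ∈ E) :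
    ENNReal.ofReal ((n : ℝ) - 0.1518 * ((n : ℝ) - 2)) ≤ dimH E := by
  obtain ⟨c, h0, h1, hp⟩ := H.RPK.best
  refine le_trans (ENNReal.ofReal_le_ofReal ?_)
    (H.main_haus hp h0 (h1.trans (by norm_num)) n hn E hE)
  have h2 : (2 : ℝ) ≤ n := by exact_mod_cast hn
  nlinarith [mul_le_mul_of_nonneg_right h1 (sub_nonneg.2 h2)]

end Pool.Agent.Results.MP_72ad00_an.HausDim
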