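import Pool.Agent.Work.MP_72ad00_an.F.KP

/-!
A set containing a translate of every `(k + 1)`-dimensional plane in dimension `n` has positive
measure when `c k * (n - k - 1) < 1`.
-/

set_option autoImplicit false

namespace Pool.Agent.Results.MP_72ad00_an.KPlanes

open Pool.Agent.Work.MP_72ad00_an

theorem result (n k : ℕ) (hk : 1 ≤ k) (hn : k + 1 ≤ n)
    (h : (0.4031 * ∏ i ∈ Finset.Icc 2 k, (0.3355 + 0.054 / ((i : ℝ) - 0.7))) *
      ((n : ℝ) - (k + 1)) < 1)
    (E : Set (EuclideanSpace ℝ (Fin n)))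
    (hE : ∀ V : Submodule ℝ (EuclideanSpace ℝ (Fin n)), Module.finrank ℝ V = k + 1 →
      ∃ x : EuclideanSpace ℝ (Fin n), ∀ v ∈ V, x + v ∈ E) :
    0 < MeasureTheory.volume E := by
  obtain ⟨j, rfl⟩ := Nat.exists_eq_add_of_le' hk
  refine pos_iff_ne_zero.2 (F.kplanes hn ?_ hE)
  rw [F.cc]
  push_cast at h ⊢
  linarith

end Pool.Agent.Results.MP_72ad00_an.KPlanes
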